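import Pool.Agent.H.MP_708d71_lc.Level2

set_option autoImplicit false

namespace Pool.Agent.H.MP_708d71_lc

section L1
variable {T N : Type} (P : Set (Rule T N)) (S : N)

abbrev N1 := Symbol T N ⊕ Symbol T N ⊕ P

def hat (X : Symbol T N) : Symbol T (N1 P) := .nonterminal (.inl X)
def mark (X : Symbol T N) : Symbol T (N1 P) := .nonterminal (.inr (.inl X))
def pend (r : P) : Symbol T (N1 P) := .nonterminal (.inr (.inr r))

def act1 : N1 P → Bool
  | .inl _ => false
  | .inr _ => true

def proj : Symbol T (N1 P) → Symbol T N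
  | .terminal a => .terminal a
  | .nonterminal (.inl X) => X
  | .nonterminal (.inr (.inl X)) => X
  | .nonterminal (.inr (.inr _)) => .nonterminal S

def pb (r : P) : List (Symbol T (N1 P)) :=
  pend P r :: List.replicate (r.1.2.length - 1) (hat P (.nonterminal S))

def NoPend (l : List (Symbol T (N1 P))) : Prop := ∀ r, pend P r ∉ l

abbrev cnt (l : List (Symbol T (N1 P))) : ℕ := l.countP (isAct (act1 P))

def P1 : Set (Rule T (N1 P)) :=
  {q | (∃ r : P, (∀ s ∈ q.1, ∃ A, s = Symbol.nonterminal A) ∧ NoPend P q.1 ∧ cnt P q.1 = 1 ∧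
          q.1.map (proj P S) = r.1.1 ∧ q.2 = pb P S r) ∨
       (∃ r : P, q.1 = pb P S r ∧ NoPend P q.2 ∧ cnt P q.2 ≤ 1 ∧ q.2.map (proj P S) = r.1.2) ∨
       (∃ r r' : P, ∃ y, q.1 = pb P S r ++ r'.1.1.map (hat P) ∧ cnt P y = 0 ∧
          y.map (proj P S) = r.1.2 ∧ q.2 = y ++ pb P S r') ∨
       (∃ r : P, q.1 = pb P S r ∧ q.2 = pb P S r)}

@[simp] theorem cnt_pb (r : P) : cnt P (pb P S r) = 1 := by
  simp [cnt, pb, pend, hat, isAct, act1, List.countP_replicate]

@[simp] theorem cnt_hat (l : List (Symbol T N)) : cnt P (l.map (hat P)) = 0 := by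
  simp [cnt, List.countP_eq_zero, hat, isAct, act1]

@[simp] theorem proj_hat (l : List (Symbol T N)) : (l.map (hat P)).map (proj P S) = l := by
  induction l with
  | nil => rfl
  | cons a l ih => simp only [List.map_cons, ih]; rfl

theorem cnt_append (a b : List (Symbol T (N1 P))) : cnt P (a ++ b) = cnt P a + cnt P b :=
  List.countP_append

theorem nopend_of_cnt (l : List (Symbol T (N1 P))) (h : cnt P l = 0) : NoPend P l := by
  intro r hr
  have := List.countP_eq_zero.1 h _ hr
  simp [pend, isAct, act1] at this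

theorem pb_len (hP : ∀ r ∈ P, (∃ A : N, Symbol.nonterminal A ∈ r.1) ∧ r.1.length ≤ r.2.length)
    (r : P) : (pb P S r).length = r.1.2.length := by
  obtain ⟨⟨A, hA⟩, h2⟩ := hP r.1 r.2
  have := List.length_pos_of_mem hA
  simp [pb]; omega

theorem align {α : Type} (p : α → Bool) (u u2 t t2 : List α) (a b : α)
    (h : u ++ a :: t = u2 ++ b :: t2) (hb : p b = true) (hu : u.countP p = 0)
    (ht : t.countP p = 0) : u = u2 ∧ a = b ∧ t = t2 := by
  rcases List.append_eq_append_iff.1 h with ⟨w, h1, h2⟩ | ⟨w, h1, h2⟩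
  · cases w with
    | nil => simp at h1 h2; exact ⟨h1.symm, h2.1, h2.2⟩
    | cons c w =>
      simp at h2
      exact absurd hb (List.countP_eq_zero.1 ht b (by rw [h2.2]; simp))
  · cases w with
    | nil => simp at h1 h2; exact ⟨h1, h2.1.symm, h2.2.symm⟩
    | cons c w =>
      simp at h2
      exact absurd hb (List.countP_eq_zero.1 hu b (by rw [h1, h2.1]; simp))

def Inv1 (φ : List (Symbol T (N1 P))) : Prop :=
  (NoPend P φ ∧ cnt P φ ≤ 1 ∧
    Relation.ReflTransGen (Step P) [Symbol.nonterminal S] (φ.map (proj P S))) ∨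
  (∃ u v, ∃ r : P, φ = u ++ pb P S r ++ v ∧ cnt P (u ++ v) = 0 ∧
    ∀ a b, a ++ b = (u ++ v).map (proj P S) →
      Relation.ReflTransGen (Step P) [Symbol.nonterminal S] (a ++ r.1.2 ++ b))

theorem align_pb (u v u2 t : List (Symbol T (N1 P))) (r r' : P)
    (h : u ++ pb P S r ++ v = u2 ++ (pb P S r' ++ t)) (hc : cnt P (u ++ v) = 0) :
    u = u2 ∧ r = r' ∧ v = t := by
  rw [cnt_append] at hc
  have h' : u ++ pend P r :: (List.replicate (r.1.2.length - 1) (hat P (.nonterminal S)) ++ v) =
      u2 ++ pend P r' :: (List.replicate (r'.1.2.length - 1) (hat P (.nonterminal S)) ++ t) := by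
    simpa [pb] using h
  obtain ⟨h1, h2, h3⟩ := align (isAct (act1 P)) _ _ _ _ _ _ h' rfl (show cnt P u = 0 by omega) (by
    rw [List.countP_append, List.countP_replicate]
    have : cnt P v = 0 := by omega
    simpa [hat, isAct, act1] using this)
  have h4 : r = r' := by
    simpa [pend] using h2
  subst h4
  exact ⟨h1, rfl, List.append_cancel_left h3⟩

theorem inv1_step (φ φ' : List (Symbol T (N1 P))) (hI : Inv1 P S φ)
    (hs : Step (P1 P S) φ φ') : Inv1 P S φ' := by
  obtain ⟨q, hq, u2, v2, u', v', hφ, rfl, huv⟩ := hs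
  rcases hI with ⟨hnp, hc, hreach⟩ | ⟨u, v, r0, hψ, hc, hreach⟩
  · rcases hq with ⟨r, -, -, h1, h2, h3⟩ | ⟨r, h1, -⟩ | ⟨r, r', y, h1, -⟩ | ⟨r, h1, -⟩
    · right
      refine ⟨u', v', r, by rw [h3], ?_, ?_⟩
      · rw [← huv]; rw [hφ] at hc
        simp only [cnt_append] at hc ⊢; omega
      · intro a b hab
        refine hreach.tail ⟨r.1, r.2, u2.map (proj P S), v2.map (proj P S), a, b, ?_, rfl, ?_⟩
        · rw [hφ, ← h2]; simp
        · rw [hab, ← huv]; simp
    · exact absurd (by rw [hφ, h1]; simp [pb]) (hnp r)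
    · exact absurd (by rw [hφ, h1]; simp [pb]) (hnp r)
    · exact absurd (by rw [hφ, h1]; simp [pb]) (hnp r)
  · rcases hq with ⟨r, -, hnp, h1, h2, h3⟩ | ⟨r, h1, h2, h3, h4⟩ | ⟨r, r', y, h1, h2, h3, h4⟩ |
      ⟨r, h1, h2⟩
    · exfalso
      obtain ⟨s, hs, hact⟩ := List.countP_pos_iff.1 (by omega : 0 < cnt P q.1)
      have hmem : s ∈ u ++ pb P S r0 ++ v := by rw [← hψ, hφ]; simp [hs]
      have hin : ∀ x ∈ u ++ v, ¬ isAct (act1 P) x = true := List.countP_eq_zero.1 hc
      simp only [List.mem_append, pb, List.mem_cons, List.mem_replicate] at hmem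
      rcases hmem with (hmem | hmem | hmem) | hmem
      · exact hin s (by simp [hmem]) hact
      · exact hnp r0 (hmem ▸ hs)
      · rw [hmem.2] at hact; simp [hat, isAct, act1] at hact
      · exact hin s (by simp [hmem]) hact
    · obtain ⟨rfl, rfl, rfl⟩ := align_pb P S u v u2 v2 r0 r
        (by rw [← hψ, hφ, h1, List.append_assoc]) hc
      left
      have hc' := hc
      rw [huv] at hc'
      refine ⟨?_, ?_, ?_⟩
      · intro r hr
        have := nopend_of_cnt P _ hc' r
        have := h2 r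
        simp_all
      · simp only [cnt_append] at hc' ⊢; omega
      · have := hreach (u'.map (proj P S)) (v'.map (proj P S)) (by rw [huv]; simp)
        simpa [h4] using this
    · obtain ⟨rfl, rfl, rfl⟩ := align_pb P S u v u2 (r'.1.1.map (hat P) ++ v2) r0 r
        (by rw [← hψ, hφ, h1]; simp) hc
      right
      have hc' : cnt P (u' ++ v') = 0 := by
        rw [← huv]; simp only [cnt_append] at hc ⊢; omega
      refine ⟨u' ++ y, v', r', by rw [h4]; simp, ?_, ?_⟩
      · simp only [cnt_append] at hc' ⊢; omega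
      · intro a b hab
        rcases List.append_eq_append_iff.1 huv with ⟨w, e1, e2⟩ | ⟨w, e1, e2⟩
        · have := hreach (u.map (proj P S) ++ r'.1.1 ++ w.map (proj P S)) (v'.map (proj P S))
            (by rw [e2]; simp only [List.map_append, proj_hat, List.append_assoc])
          refine this.tail ⟨r'.1, r'.2, u.map (proj P S),
            w.map (proj P S) ++ r0.1.2 ++ v'.map (proj P S), a, b, by simp, rfl, ?_⟩
          rw [hab, e1]; simp [h3]
        · have := hreach (u'.map (proj P S)) (w.map (proj P S) ++ r'.1.1 ++ v2.map (proj P S))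
            (by rw [e1]; simp only [List.map_append, proj_hat, List.append_assoc])
          refine this.tail ⟨r'.1, r'.2, u'.map (proj P S) ++ r0.1.2 ++ w.map (proj P S),
            v2.map (proj P S), a, b, by simp, rfl, ?_⟩
          rw [hab, e2]; simp [h3]
    · obtain ⟨rfl, rfl, rfl⟩ := align_pb P S u v u2 v2 r0 r
        (by rw [← hψ, hφ, h1, List.append_assoc]) hc
      right
      exact ⟨u', v', r0, by rw [h2], huv ▸ hc, huv ▸ hreach⟩

theorem map_proj_term (w : List T) :
    (w.map (Symbol.terminal (N := N1 P))).map (proj P S) = w.map Symbol.terminal := by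
  rw [List.map_map]; rfl

theorem sound1 : Lang (P1 P S) (Sum.inr (Sum.inl (Symbol.nonterminal S))) ⊆ Lang P S := by
  intro w hw
  have key : ∀ φ, Relation.ReflTransGen (Step (P1 P S))
      [Symbol.nonterminal (Sum.inr (Sum.inl (Symbol.nonterminal S)))] φ → Inv1 P S φ := by
    intro φ h
    induction h with
    | refl =>
      left
      refine ⟨?_, List.countP_le_length, Relation.ReflTransGen.refl⟩
      intro r; simp [pend]
    | tail _ hs ih => exact inv1_step P S _ _ ih hs
  rcases key _ hw with ⟨-, -, hreach⟩ | ⟨u, v, r, hψ, -⟩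
  · rw [map_proj_term] at hreach; exact hreach
  · exfalso
    have hmem : pend P r ∈ w.map (Symbol.terminal (N := N1 P)) := by rw [hψ]; simp [pb]
    simp [pend] at hmem

theorem tri {α : Type} (p y q u c v : List α) (hy : y ≠ []) (hc : c ≠ [])
    (h : p ++ y ++ q = u ++ c ++ v) :
    (∃ t, p = u ++ c ++ t ∧ v = t ++ y ++ q) ∨ (∃ t, q = t ++ c ++ v ∧ u = p ++ y ++ t) ∨
    (∃ y1 s y2 c1 c2, y = y1 ++ s :: y2 ∧ c = c1 ++ s :: c2 ∧ p ++ y1 = u ++ c1 ∧
      y2 ++ q = c2 ++ v) := by
  rw [List.append_assoc, List.append_assoc] at h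
  rcases List.append_eq_append_iff.1 h with ⟨w, e1, e2⟩ | ⟨w, e1, e2⟩
  · rcases List.append_eq_append_iff.1 e2 with ⟨t, e3, e4⟩ | ⟨t, e3, e4⟩
    · right; left; exact ⟨t, by rw [e4]; simp, by rw [e1, e3]; simp⟩
    · cases t with
      | nil => right; left; exact ⟨[], by simpa using e4.symm, by rw [e1, e3]; simp⟩
      | cons s t =>
        obtain ⟨s', c2, rfl⟩ := List.exists_cons_of_ne_nil hc
        simp at e4
        obtain ⟨rfl, e4⟩ := e4
        right; right
        exact ⟨w, s', t, [], c2, e3, rfl, by rw [e1]; simp, e4.symm⟩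
  · rcases List.append_eq_append_iff.1 e2 with ⟨t, e3, e4⟩ | ⟨t, e3, e4⟩
    · left; exact ⟨t, by rw [e1, e3]; simp, by rw [e4]; simp⟩
    · cases t with
      | nil => left; exact ⟨[], by rw [e1, e3]; simp, by simpa using e4.symm⟩
      | cons s t =>
        obtain ⟨s', y2, rfl⟩ := List.exists_cons_of_ne_nil hy
        simp at e4
        obtain ⟨rfl, e4⟩ := e4
        right; right
        exact ⟨[], s', y2, w, t, rfl, e3, by rw [e1]; simp, e4⟩

theorem back (hP : ∀ r ∈ P, (∃ A : N, Symbol.nonterminal A ∈ r.1) ∧ r.1.length ≤ r.2.length)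
    (w : List T) (ψ : List (Symbol T N))
    (h : Relation.ReflTransGen (Step P) ψ (w.map Symbol.terminal)) :
    ∃ φ : List (Symbol T (N1 P)), cnt P φ = 0 ∧ φ.map (proj P S) = ψ ∧
      (φ = w.map Symbol.terminal ∨ ∃ u v, ∃ r : P, φ = u ++ r.1.1.map (hat P) ++ v ∧
        Relation.ReflTransGen (Step (P1 P S)) (u ++ pb P S r ++ v) (w.map Symbol.terminal)) := by
  induction h using Relation.ReflTransGen.head_induction_on with
  | refl =>
    refine ⟨w.map Symbol.terminal, ?_, map_proj_term P S w, Or.inl rfl⟩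
    simp [cnt, List.countP_eq_zero, isAct]
  | head hs _ ih =>
    obtain ⟨r0, hr0, a, b, a', b', rfl, rfl, hab⟩ := hs
    obtain ⟨φ, hc, hφ, hcase⟩ := ih
    obtain ⟨py, q, rfl, hpy, hq⟩ := List.map_eq_append_iff.1 hφ
    obtain ⟨p, y, rfl, hp, hy⟩ := List.map_eq_append_iff.1 hpy
    have hpq : (p ++ q).map (proj P S) = a ++ b := by rw [hab, ← hp, ← hq]; simp
    obtain ⟨p0, q0, e0, hp0, hq0⟩ := List.map_eq_append_iff.1 hpq
    simp only [cnt_append] at hc
    have hc0 : cnt P p0 + cnt P q0 = 0 := by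
      rw [← cnt_append, ← e0, cnt_append]; omega
    refine ⟨p0 ++ r0.1.map (hat P) ++ q0, ?_, ?_, Or.inr ⟨p0, q0, ⟨r0, hr0⟩, rfl, ?_⟩⟩
    · simp only [cnt_append, cnt_hat]; omega
    · simp only [List.map_append, proj_hat, hp0, hq0]
    · have hyne : y ≠ [] := by
        intro h0
        obtain ⟨⟨A, hA⟩, h2⟩ := hP r0 hr0
        have := List.length_pos_of_mem hA
        rw [← hy, h0] at h2; simp at h2; rw [h2] at hA; simp at hA
      have jump : ∀ u v, u ++ v = p ++ q → Step (P1 P S) (p0 ++ pb P S ⟨r0, hr0⟩ ++ q0)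
          (u ++ pb P S ⟨r0, hr0⟩ ++ v) := by
        intro u v huv
        exact ⟨(pb P S ⟨r0, hr0⟩, pb P S ⟨r0, hr0⟩), Or.inr (Or.inr (Or.inr ⟨_, rfl, rfl⟩)),
          p0, q0, u, v, rfl, rfl, by rw [huv, e0]⟩
      rcases hcase with hw | ⟨u, v, r, e, hr⟩
      · rw [← hw]
        exact Relation.ReflTransGen.single ⟨(pb P S ⟨r0, hr0⟩, y),
          Or.inr (Or.inl ⟨_, rfl, nopend_of_cnt P y (by omega), by simp only; omega, hy⟩),
          p0, q0, p, q, rfl, rfl, e0.symm⟩
      · have hcne : r.1.1.map (hat P) ≠ [] := by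
          obtain ⟨⟨A, hA⟩, -⟩ := hP r.1 r.2
          intro h0; rw [List.map_eq_nil_iff] at h0; rw [h0] at hA; simp at hA
        rcases tri _ _ _ _ _ _ hyne hcne e with ⟨t, e1, e2⟩ | ⟨t, e1, e2⟩ |
          ⟨y1, s, y2, c1, c2, e1, e2, e3, e4⟩
        · refine Relation.ReflTransGen.head (jump u (r.1.1.map (hat P) ++ t ++ q)
            (by rw [e1]; simp)) ?_
          refine Relation.ReflTransGen.head (b := (u ++ t) ++ (y ++ pb P S r) ++ q)
            ⟨(pb P S ⟨r0, hr0⟩ ++ r.1.1.map (hat P), y ++ pb P S r),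
              Or.inr (Or.inr (Or.inl ⟨_, r, y, rfl, by omega, hy, rfl⟩)),
              u, t ++ q, u ++ t, q, by simp, rfl, by simp⟩ ?_
          refine Relation.ReflTransGen.head ?_ hr
          exact ⟨(pb P S r, pb P S r), Or.inr (Or.inr (Or.inr ⟨_, rfl, rfl⟩)),
            u ++ t ++ y, q, u, v, by simp, rfl, by rw [e2]; simp⟩
        · refine Relation.ReflTransGen.head (jump (p ++ t) (r.1.1.map (hat P) ++ v)
            (by rw [e1]; simp)) ?_
          refine Relation.ReflTransGen.head (b := p ++ (y ++ pb P S r) ++ (t ++ v))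
            ⟨(pb P S ⟨r0, hr0⟩ ++ r.1.1.map (hat P), y ++ pb P S r),
              Or.inr (Or.inr (Or.inl ⟨_, r, y, rfl, by omega, hy, rfl⟩)),
              p ++ t, v, p, t ++ v, by simp, rfl, by simp⟩ ?_
          refine Relation.ReflTransGen.head ?_ hr
          exact ⟨(pb P S r, pb P S r), Or.inr (Or.inr (Or.inr ⟨_, rfl, rfl⟩)),
            p ++ y, t ++ v, u, v, by simp, rfl, by rw [e2]; simp⟩
        · have hs : s ∈ r.1.1.map (hat P) := by rw [e2]; simp
          obtain ⟨X, -, rfl⟩ := List.mem_map.1 hs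
          have hcy : cnt P y1 + cnt P y2 = 0 := by
            have : cnt P y = 0 := by omega
            rw [e1] at this
            simp only [cnt, List.countP_append, List.countP_cons] at this ⊢; omega
          have hcc : cnt P c1 + cnt P c2 = 0 := by
            have : cnt P (r.1.1.map (hat P)) = 0 := cnt_hat P _
            rw [e2] at this
            simp only [cnt, List.countP_append, List.countP_cons] at this ⊢; omega
          have np : ∀ l1 l2 : List (Symbol T (N1 P)), cnt P l1 + cnt P l2 = 0 →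
              NoPend P (l1 ++ mark P X :: l2) ∧ cnt P (l1 ++ mark P X :: l2) = 1 := by
            intro l1 l2 hl
            constructor
            · intro r' hr'
              have n1 := nopend_of_cnt P l1 (by omega) r'
              have n2 := nopend_of_cnt P l2 (by omega) r'
              simp [n1, n2] at hr'
              simp [pend, mark] at hr'
            · have : isAct (act1 P) (mark P X) = true := rfl
              simp only [cnt, List.countP_append, List.countP_cons, this, if_true] at hl ⊢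
              omega
          refine Relation.ReflTransGen.head (b := p ++ (y1 ++ mark P X :: y2) ++ q)
            ⟨(pb P S ⟨r0, hr0⟩, y1 ++ mark P X :: y2),
              Or.inr (Or.inl ⟨_, rfl, (np _ _ hcy).1, (np _ _ hcy).2.le, ?_⟩),
              p0, q0, p, q, rfl, rfl, e0.symm⟩ ?_
          · show _ = r0.2
            rw [← hy, e1]; simp [proj, mark, hat]
          · refine Relation.ReflTransGen.head ?_ hr
            refine ⟨(c1 ++ mark P X :: c2, pb P S r),
              Or.inl ⟨r, ?_, (np _ _ hcc).1, (np _ _ hcc).2, ?_, rfl⟩, u, v, u, v, ?_, rfl, rfl⟩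
            · intro s hs
              simp only [List.mem_append, List.mem_cons] at hs
              rcases hs with hs | rfl | hs
              · have : s ∈ r.1.1.map (hat P) := by rw [e2]; simp [hs]
                obtain ⟨Y, -, rfl⟩ := List.mem_map.1 this
                exact ⟨_, rfl⟩
              · exact ⟨_, rfl⟩
              · have : s ∈ r.1.1.map (hat P) := by rw [e2]; simp [hs]
                obtain ⟨Y, -, rfl⟩ := List.mem_map.1 this
                exact ⟨_, rfl⟩
            · have := proj_hat P S r.1.1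
              rw [e2] at this
              rw [← this]; simp [proj, mark, hat]
            · calc p ++ (y1 ++ mark P X :: y2) ++ q = (p ++ y1) ++ mark P X :: (y2 ++ q) := by simp
                _ = (u ++ c1) ++ mark P X :: (c2 ++ v) := by rw [e3, e4]
                _ = _ := by simp

theorem level1 (hP : ∀ r ∈ P, (∃ A : N, Symbol.nonterminal A ∈ r.1) ∧ r.1.length ≤ r.2.length) :
    Lang (P1 P S) (Sum.inr (Sum.inl (Symbol.nonterminal S))) = Lang P S := by
  apply Set.Subset.antisymm (sound1 P S)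
  intro w hw
  obtain ⟨φ, -, hφ, hcase⟩ := back P S hP w _ hw
  rcases hcase with h | ⟨u, v, r, e, hr⟩
  · exfalso
    rw [h, map_proj_term] at hφ
    have : Symbol.nonterminal S ∈ w.map (Symbol.terminal (N := N)) := by rw [hφ]; simp
    simp at this
  · obtain ⟨⟨A, hA⟩, -⟩ := hP r.1 r.2
    have hpos := List.length_pos_of_mem hA
    have hl := congrArg List.length hφ
    rw [e] at hl
    simp only [List.length_map, List.length_append, List.length_singleton] at hl
    have hu : u = [] := List.length_eq_zero_iff.1 (by omega)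
    have hv : v = [] := List.length_eq_zero_iff.1 (by omega)
    subst hu hv
    rw [e] at hφ
    simp only [List.nil_append, List.append_nil, proj_hat] at hφ hr
    refine Relation.ReflTransGen.head ?_ hr
    refine ⟨([mark P (.nonterminal S)], pb P S r), Or.inl ⟨r, ?_, ?_, rfl, ?_, rfl⟩,
      [], [], [], [], rfl, by simp, rfl⟩
    · intro s hs; simp at hs; exact ⟨_, hs⟩
    · intro r'; simp [pend, mark]
    · rw [hφ]; rfl

theorem P1_props (hP : ∀ r ∈ P, (∃ A : N, Symbol.nonterminal A ∈ r.1) ∧ r.1.length ≤ r.2.length)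
    (K : ℕ) (hK : ∀ r ∈ P, r.2.length ≤ K) (q : Rule T (N1 P)) (hq : q ∈ P1 P S) :
    cnt P q.1 = 1 ∧ (∀ s ∈ q.1, ∃ A, s = Symbol.nonterminal A) ∧ q.1.length ≤ q.2.length ∧
      cnt P q.2 ≤ 1 ∧ q.2.length ≤ 2 * K := by
  have hpbnt : ∀ r : P, ∀ s ∈ pb P S r, ∃ A, s = Symbol.nonterminal A := by
    intro r s hs
    simp only [pb, List.mem_cons, List.mem_replicate] at hs
    rcases hs with rfl | ⟨-, rfl⟩ <;> exact ⟨_, rfl⟩
  rcases hq with ⟨r, h0, hnp, h1, h2, h3⟩ | ⟨r, h1, h2, h3, h4⟩ | ⟨r, r', y, h1, h2, h3, h4⟩ |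
      ⟨r, h1, h2⟩
  · have h5 := congrArg List.length h2
    have := hK r.1 r.2
    have := (hP r.1 r.2).2
    simp only [List.length_map] at h5
    refine ⟨h1, h0, ?_, by rw [h3]; simp, ?_⟩ <;> rw [h3, pb_len P S hP] <;> omega
  · have h5 := congrArg List.length h4
    have := hK r.1 r.2
    simp only [List.length_map] at h5
    refine ⟨by rw [h1]; simp, h1 ▸ hpbnt r, ?_, h3, ?_⟩
    · rw [h1, pb_len P S hP]; omega
    · omega
  · have h5 := congrArg List.length h3
    have := hK r.1 r.2
    have := hK r'.1 r'.2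
    have := (hP r'.1 r'.2).2
    simp only [List.length_map] at h5
    refine ⟨by rw [h1, cnt_append, cnt_hat, cnt_pb], ?_, ?_, by rw [h4, cnt_append, h2]; simp, ?_⟩
    · intro s hs
      rw [h1, List.mem_append] at hs
      rcases hs with hs | hs
      · exact hpbnt r s hs
      · obtain ⟨Y, -, rfl⟩ := List.mem_map.1 hs
        exact ⟨_, rfl⟩
    · rw [h1, h4]; simp only [List.length_append, pb_len P S hP, List.length_map]; omega
    · rw [h4]; simp only [List.length_append, pb_len P S hP]; omega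
  · have := hK r.1 r.2
    refine ⟨by rw [h1]; simp, h1 ▸ hpbnt r, by rw [h1, h2], by rw [h2]; simp, ?_⟩
    rw [h2, pb_len P S hP]; omega

end L1

theorem main {T N : Type} [Finite T] [Finite N] (P : Set (Rule T N)) (S : N) (hfin : P.Finite)
    (hP : ∀ r ∈ P, (∃ A : N, Symbol.nonterminal A ∈ r.1) ∧ r.1.length ≤ r.2.length) :
    ∃ (N' : Type) (_ : Finite N') (S' : N') (P' : Set (Rule T N')), P'.Finite ∧
      (∀ r ∈ P', ∃ (α β γ : List (Symbol T N')) (A : N'), γ ≠ [] ∧
            r.1 = α ++ [Symbol.nonterminal A] ++ β ∧ r.2 = α ++ γ ++ β) ∧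
      Lang P' S' = Lang P S := by
  have : Finite P := hfin
  obtain ⟨K, hK⟩ := (hfin.image (fun r => r.2.length)).bddAbove
  have hK' : ∀ r ∈ P, r.2.length ≤ K := fun r hr => hK ⟨r, hr, rfl⟩
  have hp := P1_props P S hP K hK'
  have hf1 : (P1 P S).Finite := rules_finite _ (2 * K) (fun q hq =>
    ⟨(hp q hq).2.2.1.trans (hp q hq).2.2.2.2, (hp q hq).2.2.2.2⟩)
  have := finSp (P1 P S) hf1
  refine ⟨N2 (P1 P S), inferInstance, Sum.inl (Sum.inr (Sum.inl (Symbol.nonterminal S))),
    P2 (P1 P S) (act1 P), P2_finite _ _ hf1 (fun q hq => (hp q hq).2.2.1), fun r hr => hr.1, ?_⟩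
  rw [level2 (P1 P S) (act1 P) _ (fun q hq => (hp q hq).1) (fun q hq => (hp q hq).2.1)
    (fun q hq => (hp q hq).2.2.1) (fun q hq => (hp q hq).2.2.2.1), level1 P S hP]

end Pool.Agent.H.MP_708d71_lc
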