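import Mathlib

set_option autoImplicit false

namespace Pool.Agent.H.MP_708d71_lc

abbrev Rule (T N : Type) := List (Symbol T N) × List (Symbol T N)

def Step {T N : Type} (P : Set (Rule T N)) (x y : List (Symbol T N)) : Prop :=
  ∃ r ∈ P, ∃ (u v u' v' : List (Symbol T N)),
    x = u ++ r.1 ++ v ∧ y = u' ++ r.2 ++ v' ∧ u ++ v = u' ++ v'

def Lang {T N : Type} (P : Set (Rule T N)) (S : N) : Set (List T) :=
  {w | Relation.ReflTransGen (Step P) [Symbol.nonterminal S] (w.map Symbol.terminal)}

instance finSym {T N : Type} [Finite T] [Finite N] : Finite (Symbol T N) := by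
  apply Finite.of_surjective (α := T ⊕ N)
    (fun x => match x with | .inl a => Symbol.terminal a | .inr A => Symbol.nonterminal A)
  intro s
  cases s with
  | terminal a => exact ⟨.inl a, rfl⟩
  | nonterminal A => exact ⟨.inr A, rfl⟩

theorem rules_finite {T N : Type} [Finite T] [Finite N] (P : Set (Rule T N)) (K : ℕ)
    (h : ∀ r ∈ P, r.1.length ≤ K ∧ r.2.length ≤ K) : P.Finite := by
  have h1 := List.finite_length_le (Symbol T N) K
  refine (h1.prod h1).subset ?_
  intro r hr
  exact ⟨(h r hr).1, (h r hr).2⟩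

def isAct {T N : Type} (act : N → Bool) : Symbol T N → Bool
  | .terminal _ => false
  | .nonterminal A => act A

section L2
variable {T N : Type} (P : Set (Rule T N)) (act : N → Bool)

abbrev Sp := {p : Rule T N × ℕ // p.1 ∈ P ∧ p.2 < p.1.2.length}
abbrev N2 := N ⊕ Sp P

def emb : Symbol T N → Symbol T (N2 P)
  | .terminal a => .terminal a
  | .nonterminal A => .nonterminal (.inl A)

def spec : Symbol T (N2 P) → Option (Rule T N × ℕ)
  | .nonterminal (.inr p) => some p.1
  | _ => none

theorem emb_inj : Function.Injective (emb P) := by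
  intro a b h
  cases a <;> cases b <;> simp_all [emb]

@[simp] theorem spec_emb (s : Symbol T N) : spec P (emb P s) = none := by
  cases s <;> rfl

def Inert2 (s : Symbol T (N2 P)) : Prop := ∃ s1, s = emb P s1 ∧ isAct act s1 = false

def Block (r : Rule T N) (z : List (Symbol T (N2 P))) : Prop :=
  z.length = r.2.length ∧
  (∀ i s, z[i]? = some s → Inert2 P act s ∨ spec P s = some (r, i)) ∧
  ∃ i s, z[i]? = some s ∧ spec P s = some (r, i)

def P2 : Set (Rule T (N2 P)) :=
  {q | (∃ (α β γ : List (Symbol T (N2 P))) (A : N2 P), γ ≠ [] ∧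
        q.1 = α ++ [Symbol.nonterminal A] ++ β ∧ q.2 = α ++ γ ++ β) ∧
      ∃ r ∈ P, (q.1 = r.1.map (emb P) ∨ Block P act r q.1) ∧
        (Block P act r q.2 ∨ q.2 = r.2.map (emb P))}

theorem finSp (hP : P.Finite) : Finite (Sp P) := by
  have : {p : Rule T N × ℕ | p.1 ∈ P ∧ p.2 < p.1.2.length}.Finite := by
    have h2 : (⋃ r ∈ P, ({r} : Set (Rule T N)) ×ˢ (Set.Iio r.2.length)).Finite :=
      hP.biUnion (fun r _ => (Set.finite_singleton r).prod (Set.finite_Iio _))
    refine h2.subset ?_
    rintro ⟨r, i⟩ ⟨h1, h3⟩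
    simp only [Set.mem_iUnion]
    exact ⟨r, h1, rfl, h3⟩
  exact this

def Inv (S : N) (φ : List (Symbol T (N2 P))) : Prop :=
  (∃ ψ, φ = ψ.map (emb P) ∧ Relation.ReflTransGen (Step P) [Symbol.nonterminal S] ψ ∧
      ψ.countP (isAct act) ≤ 1) ∨
  (∃ u v z r, r ∈ P ∧ φ = u.map (emb P) ++ z ++ v.map (emb P) ∧ Block P act r z ∧
      (u ++ v).countP (isAct act) = 0 ∧
      ∃ u0 v0, u0 ++ v0 = u ++ v ∧
        Relation.ReflTransGen (Step P) [Symbol.nonterminal S] (u0 ++ r.1 ++ v0))

theorem inv_finish (S : N) (h3 : ∀ r ∈ P, r.2.countP (isAct act) ≤ 1)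
    (r : Rule T N) (hr : r ∈ P) (u0 v0 : List (Symbol T N))
    (hreach : Relation.ReflTransGen (Step P) [Symbol.nonterminal S] (u0 ++ r.1 ++ v0))
    (hc : (u0 ++ v0).countP (isAct act) = 0)
    (u' v' m : List (Symbol T (N2 P))) (huv : (u0 ++ v0).map (emb P) = u' ++ v')
    (hm : Block P act r m ∨ m = r.2.map (emb P)) : Inv P act S (u' ++ m ++ v') := by
  obtain ⟨u1, v1, h1, rfl, rfl⟩ := List.map_eq_append_iff.1 huv
  rcases hm with hm | rfl
  · right
    exact ⟨u1, v1, m, r, hr, rfl, hm, h1 ▸ hc, u0, v0, h1, hreach⟩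
  · left
    refine ⟨u1 ++ r.2 ++ v1, by simp, hreach.tail ⟨r, hr, u0, v0, u1, v1, rfl, rfl, h1⟩, ?_⟩
    rw [h1] at hc
    have := h3 r hr
    simp only [List.countP_append] at hc ⊢
    omega

theorem inv_step (S : N) (h1 : ∀ r ∈ P, r.1.countP (isAct act) = 1)
    (h3 : ∀ r ∈ P, r.2.countP (isAct act) ≤ 1)
    (φ φ' : List (Symbol T (N2 P))) (hI : Inv P act S φ) (hs : Step (P2 P act) φ φ') :
    Inv P act S φ' := by
  obtain ⟨q, ⟨-, r, hr, hl, hm⟩, u2, v2, u', v', hφ, rfl, huv⟩ := hs
  rcases hI with ⟨ψ, hψ, hreach, hc⟩ | ⟨u, v, z, r0, hr0, hψ, hz, hc, u0, v0, h0, hreach⟩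
  · rcases hl with hl | hl
    · rw [hl, hψ] at hφ
      obtain ⟨a, v1, ha, ha2, rfl⟩ := List.map_eq_append_iff.1 hφ
      obtain ⟨u1, x1, rfl, rfl, hx⟩ := List.map_eq_append_iff.1 ha2
      have hx' : x1 = r.1 := (List.map_injective_iff.2 (emb_inj P)) hx
      subst hx'
      subst ha
      refine inv_finish P act S h3 r hr u1 v1 hreach ?_ u' v' q.2 (by simpa using huv) hm
      have := h1 r hr
      simp only [List.countP_append] at hc ⊢
      omega
    · exfalso
      obtain ⟨-, -, i, s, hi, hs⟩ := hl
      have hmem : s ∈ φ := by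
        rw [hφ]; simp [List.mem_of_getElem? hi]
      rw [hψ] at hmem
      obtain ⟨s1, -, rfl⟩ := List.mem_map.1 hmem
      simp at hs
  · have hcu : ∀ s ∈ u ++ v, isAct act s = false := by
      intro s hs
      have := List.countP_eq_zero.1 hc s hs
      simpa using this
    rcases hl with hl | hl
    · exfalso
      have hpos : 0 < r.1.countP (isAct act) := by rw [h1 r hr]; exact Nat.one_pos
      obtain ⟨s, hs, hact⟩ := List.countP_pos_iff.1 hpos
      have hmem : emb P s ∈ φ := by
        rw [hφ, hl]; simp only [List.mem_append]; left; right; exact List.mem_map_of_mem hs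
      rw [hψ] at hmem
      simp only [List.mem_append] at hmem
      rcases hmem with (hmem | hmem) | hmem
      · obtain ⟨s1, hs1, he⟩ := List.mem_map.1 hmem
        have := emb_inj P he; subst this
        have := hcu s1 (by simp [hs1]); simp_all
      · obtain ⟨i, hi⟩ := List.getElem?_of_mem hmem
        rcases hz.2.1 i _ hi with ⟨s1, he, hin⟩ | hsp
        · have := emb_inj P he; subst this; simp_all
        · simp at hsp
      · obtain ⟨s1, hs1, he⟩ := List.mem_map.1 hmem
        have := emb_inj P he; subst this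
        have := hcu s1 (by simp [hs1]); simp_all
    · obtain ⟨hlen, -, i, s, hi, hs⟩ := hl
      have hilt : i < q.1.length := by
        by_contra hcon
        rw [List.getElem?_eq_none (by omega)] at hi
        simp at hi
      have hpos : φ[u2.length + i]? = some s := by
        rw [hφ, List.append_assoc, List.getElem?_append_right (by omega)]
        simp only [Nat.add_sub_cancel_left]
        rw [List.getElem?_append_left hilt]; exact hi
      have hnot : ∀ l : List (Symbol T N), ∀ j : ℕ, (l.map (emb P))[j]? ≠ some s := by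
        intro l j hj
        obtain ⟨s1, -, rfl⟩ := List.mem_map.1 (List.mem_of_getElem? hj)
        simp at hs
      have key : r0 = r ∧ u2.length = u.length := by
        rw [hψ, List.append_assoc] at hpos
        by_cases hlt : u2.length + i < u.length
        · rw [List.getElem?_append_left (by simpa using hlt)] at hpos
          exact absurd hpos (hnot _ _)
        · rw [List.getElem?_append_right (by simpa using hlt)] at hpos
          by_cases hlt2 : u2.length + i - (u.map (emb P)).length < z.length
          · rw [List.getElem?_append_left hlt2] at hpos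
            rcases hz.2.1 _ _ hpos with ⟨s1, rfl, -⟩ | hsp
            · simp at hs
            · rw [hs] at hsp
              simp only [List.length_map, Option.some.injEq, Prod.mk.injEq] at hsp
              refine ⟨hsp.1.symm, by omega⟩
          · rw [List.getElem?_append_right (by omega)] at hpos
            exact absurd hpos (hnot _ _)
      obtain ⟨rfl, hul⟩ := key
      have e : u.map (emb P) ++ z ++ v.map (emb P) = u2 ++ q.1 ++ v2 := hψ.symm.trans hφ
      have e1 := List.append_inj e (by simp [hul, hz.1, hlen])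
      have e2 := List.append_inj e1.1 (by simp [hul])
      refine inv_finish P act S h3 r0 hr0 u0 v0 hreach (h0 ▸ hc) u' v' q.2 ?_ hm
      rw [h0, ← huv, List.map_append, e2.1, e1.2]

theorem sound2 (S : N) (h1 : ∀ r ∈ P, r.1.countP (isAct act) = 1)
    (h3 : ∀ r ∈ P, r.2.countP (isAct act) ≤ 1) :
    Lang (P2 P act) (Sum.inl S) ⊆ Lang P S := by
  intro w hw
  have key : ∀ φ, Relation.ReflTransGen (Step (P2 P act)) [Symbol.nonterminal (Sum.inl S)] φ →
      Inv P act S φ := by
    intro φ h
    induction h with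
    | refl =>
      left
      refine ⟨[Symbol.nonterminal S], rfl, Relation.ReflTransGen.refl, ?_⟩
      exact List.countP_le_length
    | tail _ hs ih => exact inv_step P act S h1 h3 _ _ ih hs
  rcases key _ hw with ⟨ψ, hψ, hreach, -⟩ | ⟨u, v, z, r, -, hψ, hz, -⟩
  · have : ψ = w.map Symbol.terminal := by
      apply List.map_injective_iff.2 (emb_inj P)
      rw [← hψ, List.map_map]; rfl
    rw [this] at hreach
    exact hreach
  · exfalso
    obtain ⟨-, -, i, s, hi, hs⟩ := hz
    have hmem : s ∈ w.map (Symbol.terminal (N := N2 P)) := by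
      rw [hψ]; simp [List.mem_of_getElem? hi]
    obtain ⟨a, -, rfl⟩ := List.mem_map.1 hmem
    simp [spec] at hs

theorem lift_chain {T N : Type} (Q : Set (Rule T N)) (l m : List (Symbol T N))
    (h : Relation.ReflTransGen (fun a b => (a, b) ∈ Q) l m) (u v : List (Symbol T N)) :
    Relation.ReflTransGen (Step Q) (u ++ l ++ v) (u ++ m ++ v) := by
  induction h with
  | refl => exact Relation.ReflTransGen.refl
  | tail _ hs ih => exact ih.tail ⟨_, hs, u, v, u, v, rfl, rfl, rfl⟩

theorem mix (r : Rule T N) (hr : r ∈ P) (z w : List (Symbol T (N2 P)))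
    (hz : Block P act r z) (hw : Block P act r w) (p : ℕ) (s : Symbol T (N2 P))
    (hp1 : z[p]? = some s) (hp2 : w[p]? = some s) (hs : spec P s = some (r, p))
    (hnt : ∀ a ∈ z, ∃ A, a = Symbol.nonterminal A) :
    Relation.ReflTransGen (fun a b => (a, b) ∈ P2 P act) z w := by
  have hlen : z.length = w.length := hz.1.trans hw.1.symm
  have hget : ∀ k i, (w.take k ++ z.drop k)[i]? = if i < k then w[i]? else z[i]? := by
    intro k i
    by_cases hk : k ≤ w.length
    · split_ifs with h
      · rw [List.getElem?_append_left (by simp; omega), List.getElem?_take_of_lt h]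
      · rw [List.getElem?_append_right (by simp; omega), List.getElem?_drop]
        congr 1; simp; omega
    · rw [List.take_of_length_le (by omega), List.drop_of_length_le (by omega), List.append_nil]
      split_ifs with h
      · rfl
      · rw [List.getElem?_eq_none (by omega), List.getElem?_eq_none (by omega)]
  have hB : ∀ k, Block P act r (w.take k ++ z.drop k) := by
    intro k
    refine ⟨?_, ?_, p, s, ?_, hs⟩
    · rw [← hz.1]; simp; omega
    · intro i a hi
      rw [hget] at hi
      split_ifs at hi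
      · exact hw.2.1 i a hi
      · exact hz.2.1 i a hi
    · rw [hget]; split_ifs <;> assumption
  have key : ∀ k, k ≤ w.length →
      Relation.ReflTransGen (fun a b => (a, b) ∈ P2 P act) z (w.take k ++ z.drop k) := by
    intro k
    induction k with
    | zero => intro _; simpa using Relation.ReflTransGen.refl
    | succ k ih =>
      intro hk
      refine (ih (by omega)).tail ⟨?_, r, hr, Or.inr (hB k), Or.inl (hB (k+1))⟩
      have hkz : k < z.length := by omega
      obtain ⟨A, hA⟩ := hnt z[k] (List.getElem_mem hkz)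
      refine ⟨w.take k, z.drop (k+1), [w[k]], A, by simp, ?_, ?_⟩
      · show w.take k ++ z.drop k = _
        rw [List.drop_eq_getElem_cons hkz, hA]; simp
      · show w.take (k+1) ++ z.drop (k+1) = _
        rw [List.take_succ_eq_append_getElem (by omega)]
  have := key w.length le_rfl
  rwa [List.take_length, List.drop_of_length_le (by omega), List.append_nil] at this

/-- the full row of special symbols -/
def full (r : Rule T N) (hr : r ∈ P) : List (Symbol T (N2 P)) :=
  List.ofFn (fun i : Fin r.2.length => Symbol.nonterminal (Sum.inr ⟨(r, i.1), hr, i.2⟩))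

theorem full_len (r : Rule T N) (hr : r ∈ P) : (full P r hr).length = r.2.length := by
  simp [full]

theorem full_spec (r : Rule T N) (hr : r ∈ P) (i : ℕ) (s : Symbol T (N2 P))
    (h : (full P r hr)[i]? = some s) : spec P s = some (r, i) ∧ ∃ A, s = Symbol.nonterminal A := by
  unfold full at h
  rw [List.getElem?_ofFn] at h
  split_ifs at h with hi
  simp only [Option.some.injEq] at h
  subst h
  exact ⟨rfl, _, rfl⟩

theorem split_one {α : Type} (p : α → Bool) (l : List α) (hl : l ≠ []) (h : l.countP p ≤ 1) :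
    ∃ a B b, l = a ++ [B] ++ b ∧ (∀ s ∈ a, p s = false) ∧ (∀ s ∈ b, p s = false) ∧
      (l.countP p = 1 → p B = true) := by
  by_cases h0 : l.countP p = 0
  · obtain ⟨B, b, rfl⟩ := List.exists_cons_of_ne_nil hl
    refine ⟨[], B, b, rfl, by simp, ?_, by omega⟩
    intro s hs
    simpa using List.countP_eq_zero.1 h0 s (by simp [hs])
  · obtain ⟨B, hB, hp⟩ := List.countP_pos_iff.1 (Nat.pos_of_ne_zero h0)
    obtain ⟨a, b, rfl⟩ := List.append_of_mem hB
    simp only [List.countP_append, List.countP_cons, hp, if_true] at h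
    refine ⟨a, B, b, by simp, ?_, ?_, fun _ => hp⟩
    · intro s hs
      simpa using List.countP_eq_zero.1 (by omega : a.countP p = 0) s hs
    · intro s hs
      simpa using List.countP_eq_zero.1 (by omega : b.countP p = 0) s hs

/-- a window of the full row between inert words is a block -/
theorem window (r : Rule T N) (hr : r ∈ P) (a b : List (Symbol T N))
    (ha : ∀ s ∈ a, isAct act s = false) (hb : ∀ s ∈ b, isAct act s = false)
    (hlen : a.length + b.length < r.2.length) :
    ∃ γ : List (Symbol T (N2 P)), γ.length + a.length + b.length = r.2.length ∧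
      Block P act r (a.map (emb P) ++ γ ++ b.map (emb P)) ∧
      (∀ s ∈ γ, ∃ A, s = Symbol.nonterminal A) ∧
      ∃ s, (a.map (emb P) ++ γ ++ b.map (emb P))[a.length]? = some s ∧
        (full P r hr)[a.length]? = some s ∧ spec P s = some (r, a.length) := by
  have hf := full_len P r hr
  set γ := ((full P r hr).drop a.length).take (r.2.length - a.length - b.length) with hγ
  have hγl : γ.length + a.length + b.length = r.2.length := by
    rw [hγ]; simp; omega
  have hγg : ∀ j, j < γ.length → γ[j]? = (full P r hr)[a.length + j]? := by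
    intro j hj
    rw [hγ, List.getElem?_take_of_lt (by omega), List.getElem?_drop]
  have hs0 : ∃ s, (a.map (emb P) ++ γ ++ b.map (emb P))[a.length]? = some s ∧
        (full P r hr)[a.length]? = some s ∧ spec P s = some (r, a.length) := by
    have hlt : a.length < (full P r hr).length := by omega
    refine ⟨(full P r hr)[a.length], ?_, List.getElem?_eq_getElem hlt,
      (full_spec P r hr _ _ (List.getElem?_eq_getElem hlt)).1⟩
    rw [List.append_assoc, List.getElem?_append_right (by simp),
      List.getElem?_append_left (by simp; omega)]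
    rw [hγg _ (by simp; omega)]
    simp
  refine ⟨γ, hγl, ⟨by simp; omega, ?_, ?_⟩, ?_, hs0⟩
  · intro i s hi
    rw [List.append_assoc] at hi
    by_cases h1 : i < a.length
    · rw [List.getElem?_append_left (by simpa using h1)] at hi
      obtain ⟨s1, hs1, rfl⟩ := List.mem_map.1 (List.mem_of_getElem? hi)
      exact Or.inl ⟨s1, rfl, ha s1 hs1⟩
    · rw [List.getElem?_append_right (by simpa using h1)] at hi
      by_cases h2 : i - (a.map (emb P)).length < γ.length
      · rw [List.getElem?_append_left h2, hγg _ h2] at hi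
        right
        have := (full_spec P r hr _ _ hi).1
        rw [this]; congr 2; simp; omega
      · rw [List.getElem?_append_right (by omega)] at hi
        obtain ⟨s1, hs1, rfl⟩ := List.mem_map.1 (List.mem_of_getElem? hi)
        exact Or.inl ⟨s1, rfl, hb s1 hs1⟩
  · obtain ⟨s, h1, -, h2⟩ := hs0
    exact ⟨_, s, h1, h2⟩
  · intro s hs
    obtain ⟨j, hj⟩ := List.getElem?_of_mem hs
    have hjl : j < γ.length := by
      by_contra hcon
      rw [List.getElem?_eq_none (by omega)] at hj
      simp at hj
    rw [hγg _ hjl] at hj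
    exact (full_spec P r hr _ _ hj).2

theorem complete_step (h1 : ∀ r ∈ P, r.1.countP (isAct act) = 1)
    (h1' : ∀ r ∈ P, ∀ s ∈ r.1, ∃ A, s = Symbol.nonterminal A)
    (h2 : ∀ r ∈ P, r.1.length ≤ r.2.length)
    (h3 : ∀ r ∈ P, r.2.countP (isAct act) ≤ 1) (x y : List (Symbol T N)) (h : Step P x y) :
    Relation.ReflTransGen (Step (P2 P act)) (x.map (emb P)) (y.map (emb P)) := by
  obtain ⟨r, hr, u, v, u', v', rfl, rfl, huv⟩ := h
  have hne1 : r.1 ≠ [] := by
    intro h0; have := h1 r hr; rw [h0] at this; simp at this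
  have hne2 : r.2 ≠ [] := by
    intro h0; have := h2 r hr; rw [h0] at this; simp at this; exact hne1 this
  obtain ⟨a, B, b, e1, ha, hb, -⟩ := split_one (isAct act) r.1 hne1 (h1 r hr).le
  obtain ⟨c, D, d, e2, hc, hd, -⟩ := split_one (isAct act) r.2 hne2 (h3 r hr)
  have l1 : r.1.length = a.length + 1 + b.length := by rw [e1]; simp; omega
  have l2 : r.2.length = c.length + 1 + d.length := by rw [e2]; simp; omega
  have := h2 r hr
  obtain ⟨γ, hγl, hγB, hγnt, s, hs1, hs2, hs3⟩ := window P act r hr a b ha hb (by omega)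
  obtain ⟨δ, hδl, hδB, hδnt, t, ht1, ht2, ht3⟩ := window P act r hr c d hc hd (by omega)
  have hfullB : Block P act r (full P r hr) :=
    ⟨full_len P r hr, fun i s hi => Or.inr (full_spec P r hr i s hi).1, _, s, hs2, hs3⟩
  obtain ⟨A, rfl⟩ := h1' r hr B (by rw [e1]; simp)
  have c1 : (r.1.map (emb P), a.map (emb P) ++ γ ++ b.map (emb P)) ∈ P2 P act := by
    refine ⟨⟨a.map (emb P), b.map (emb P), γ, Sum.inl A, ?_, ?_, rfl⟩, r, hr, Or.inl rfl, Or.inl hγB⟩
    · intro h0; rw [h0] at hγl; simp at hγl; omega
    · show r.1.map (emb P) = _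
      rw [e1]; simp [emb]
  have c2 := mix P act r hr _ _ hγB hfullB _ s hs1 hs2 hs3 (by
    intro x hx
    simp only [List.mem_append] at hx
    rcases hx with (hx | hx) | hx
    · obtain ⟨s1, hs1, rfl⟩ := List.mem_map.1 hx
      obtain ⟨A', rfl⟩ := h1' r hr s1 (by rw [e1]; simp [hs1])
      exact ⟨_, rfl⟩
    · exact hγnt x hx
    · obtain ⟨s1, hs1, rfl⟩ := List.mem_map.1 hx
      obtain ⟨A', rfl⟩ := h1' r hr s1 (by rw [e1]; simp [hs1])
      exact ⟨_, rfl⟩)
  have c3 := mix P act r hr _ _ hfullB hδB _ t ht2 ht1 ht3 (by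
    intro x hx
    obtain ⟨j, hj⟩ := List.getElem?_of_mem hx
    exact (full_spec P r hr _ _ hj).2)
  have hδ1 : δ.length = 1 := by omega
  obtain ⟨e, rfl⟩ := List.length_eq_one_iff.1 hδ1
  obtain ⟨E, rfl⟩ := hδnt e (by simp)
  have c4 : (c.map (emb P) ++ [Symbol.nonterminal E] ++ d.map (emb P), r.2.map (emb P))
      ∈ P2 P act := by
    refine ⟨⟨c.map (emb P), d.map (emb P), [emb P D], E, by simp, rfl, ?_⟩, r, hr, Or.inr hδB,
      Or.inr rfl⟩
    show r.2.map (emb P) = _
    rw [e2]; simp
  have c5 := lift_chain (P2 P act) _ _ ((Relation.ReflTransGen.head (r := fun a b => (a, b) ∈ P2 P act) c1 c2).trans c3)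
    (u.map (emb P)) (v.map (emb P))
  simp only [List.map_append]
  refine c5.tail ⟨_, c4, u.map (emb P), v.map (emb P), u'.map (emb P), v'.map (emb P), rfl, rfl, ?_⟩
  rw [← List.map_append, huv, List.map_append]

theorem level2 (S : N) (h1 : ∀ r ∈ P, r.1.countP (isAct act) = 1)
    (h1' : ∀ r ∈ P, ∀ s ∈ r.1, ∃ A, s = Symbol.nonterminal A)
    (h2 : ∀ r ∈ P, r.1.length ≤ r.2.length)
    (h3 : ∀ r ∈ P, r.2.countP (isAct act) ≤ 1) :
    Lang (P2 P act) (Sum.inl S) = Lang P S := by
  apply Set.Subset.antisymm (sound2 P act S h1 h3)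
  intro w hw
  have key : ∀ x y, Relation.ReflTransGen (Step P) x y →
      Relation.ReflTransGen (Step (P2 P act)) (x.map (emb P)) (y.map (emb P)) := by
    intro x y h
    induction h with
    | refl => exact Relation.ReflTransGen.refl
    | tail _ hs ih => exact ih.trans (complete_step P act h1 h1' h2 h3 _ _ hs)
  have := key _ _ hw
  rw [List.map_map] at this
  exact this

theorem P2_finite [Finite T] [Finite N] (hP : P.Finite)
    (h2 : ∀ r ∈ P, r.1.length ≤ r.2.length) : (P2 P act).Finite := by
  have := finSp P hP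
  obtain ⟨K, hK⟩ := (hP.image (fun r => r.2.length)).bddAbove
  apply rules_finite _ K
  rintro q ⟨-, r, hr, hl, hm⟩
  have h5 : r.2.length ≤ K := hK ⟨r, hr, rfl⟩
  have := h2 r hr
  constructor
  · rcases hl with hl | hl
    · rw [hl]; simp; omega
    · rw [hl.1]; exact h5
  · rcases hm with hm | hm
    · rw [hm.1]; exact h5
    · rw [hm]; simpa using h5

end L2

end Pool.Agent.H.MP_708d71_lc
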